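import Pool.Agent.H.MP_887eca_lc.D

set_option autoImplicit false

namespace Pool.Agent.H887e

open Finset

variable {I J : Type} [Fintype I] {N C : ℕ}

instance : Inhabited (Conf J N C) := ⟨⟨fun _ _ => 0, fun _ _ => by simp, fun _ => by simp⟩⟩

theorem q_nonneg (nb : I → Finset J) (x : I → Fin N) (y : Conf J N C) : 0 ≤ q nb x y :=
  sum_nonneg fun _ _ => le_min zero_le_one (sum_nonneg fun j _ => (y.2.1 j _).1)

theorem q_le (nb : I → Finset J) (x : I → Fin N) (y : Conf J N C) :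
    q nb x y ≤ Fintype.card I := by
  calc q nb x y ≤ ∑ _i : I, (1 : ℝ) := sum_le_sum fun _ _ => min_le_left _ _
    _ = _ := by simp

theorem sq_le (nb : I → Finset J) (x : ℕ → I → Fin N) (y : ℕ → Conf J N C) (T : ℕ) :
    ∑ t ∈ range T, q nb (x t) (y t) ≤ T * Fintype.card I := by
  calc _ ≤ ∑ _t ∈ range T, (Fintype.card I : ℝ) := sum_le_sum fun _ _ => q_le _ _ _
    _ = _ := by simp

theorem bdd1 (nb : I → Finset J) (x : ℕ → I → Fin N) (T : ℕ) :
    BddAbove (Set.range fun y : Conf J N C => ∑ t ∈ range T, q nb (x t) y) :=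
  ⟨T * Fintype.card I, by rintro _ ⟨y, rfl⟩; exact sq_le nb x (fun _ => y) T⟩

theorem le_regret (nb : I → Finset J) (π : List (I → Fin N) → Conf J N C) (T : ℕ)
    (x : ℕ → I → Fin N) (y : Conf J N C) :
    ∑ t ∈ range T, q nb (x t) y - ∑ t ∈ range T, q nb (x t) (π ((List.range t).map x))
      ≤ regret nb π T := by
  refine le_ciSup_of_le ⟨T * Fintype.card I, ?_⟩ x ?_
  · rintro _ ⟨x, rfl⟩
    have h1 : (⨆ y : Conf J N C, ∑ t ∈ range T, q nb (x t) y) ≤ T * Fintype.card I :=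
      ciSup_le fun y => sq_le nb x (fun _ => y) T
    have h2 : 0 ≤ ∑ t ∈ range T, q nb (x t) (π ((List.range t).map x)) :=
      sum_nonneg fun _ _ => q_nonneg _ _ _
    simp only
    linarith
  · have := le_ciSup (bdd1 (C := C) nb x T) y
    linarith

theorem minimax_le (nb : I → Finset J) (T : ℕ) (x0 : I → Fin N)
    (π : List (I → Fin N) → Conf J N C) {R : ℝ}
    (h : ∀ (x : ℕ → I → Fin N) (y : Conf J N C), ∑ t ∈ range T, q nb (x t) y -
      ∑ t ∈ range T, q nb (x t) (π ((List.range t).map x)) ≤ R) : minimax nb N C T ≤ R := by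
  have : Nonempty (ℕ → I → Fin N) := ⟨fun _ => x0⟩
  refine ciInf_le_of_le ⟨-(T * Fintype.card I), ?_⟩ π (ciSup_le fun x => ?_)
  · rintro _ ⟨π, rfl⟩
    have h1 := le_regret nb π T (fun _ => x0) default
    have h2 := sq_le nb (fun _ => x0) (fun t => π ((List.range t).map fun _ => x0)) T
    have h3 : 0 ≤ ∑ _t ∈ range T, q nb x0 (default : Conf J N C) :=
      sum_nonneg fun _ _ => q_nonneg _ _ _
    linarith
  · rw [sub_le_iff_le_add]
    exact ciSup_le fun y => by have := h x y; linarith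

/-- projected gradient ascent on a closed convex set -/
theorem oga {E X : Type} [NormedAddCommGroup E] [InnerProductSpace ℝ E] [CompleteSpace E]
    {K : Set E} (h0 : (0 : E) ∈ K) (hc : IsClosed K) (hv : Convex ℝ K) (g : X → E) {G η : ℝ}
    (hG : ∀ x, ‖g x‖ ^ 2 ≤ G) (hη : 0 < η) :
    ∃ st : List X → E, (∀ l, st l ∈ K) ∧ ∀ (x : ℕ → X) (u : E), u ∈ K → ∀ T : ℕ,
      ∑ t ∈ range T, inner ℝ (g (x t)) (u - st ((List.range t).map x))
        ≤ ‖u‖ ^ 2 / (2 * η) + η * T * G / 2 := by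
  have hp : ∀ v : E, ∃ p ∈ K, ∀ u ∈ K, ‖p - u‖ ^ 2 ≤ ‖v - u‖ ^ 2 := by
    intro v
    obtain ⟨p, hp, hm⟩ := exists_norm_eq_iInf_of_complete_convex ⟨0, h0⟩ hc.isComplete hv v
    refine ⟨p, hp, fun u hu => ?_⟩
    have h1 := (norm_eq_iInf_iff_real_inner_le_zero hv hp).1 hm u hu
    have h2 : v - u = (v - p) - (u - p) := by abel
    rw [h2, norm_sub_sq_real (v - p), norm_sub_rev p u]
    nlinarith [sq_nonneg ‖v - p‖]
  choose P hP1 hP2 using hp
  refine ⟨fun l => l.foldl (fun u x => P (u + η • g x)) 0, fun l => ?_, fun x u hu T => ?_⟩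
  · induction l using List.reverseRecOn with
    | nil => exact h0
    | append_singleton l a _ => simp only [List.foldl_append, List.foldl]; exact hP1 _
  · set st : ℕ → E := fun t => ((List.range t).map x).foldl (fun u x => P (u + η • g x)) 0
      with hst
    have hs : ∀ t, st (t + 1) = P (st t + η • g (x t)) := by
      intro t
      simp only [hst, List.range_succ, List.map_append, List.foldl_append, List.map, List.foldl]
    have key : ∀ T : ℕ, 2 * η * ∑ t ∈ range T, inner ℝ (g (x t)) (u - st t) + ‖st T - u‖ ^ 2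
        ≤ ‖u‖ ^ 2 + η ^ 2 * T * G := by
      intro T
      induction T with
      | zero => simp [hst]
      | succ T ih =>
        have h1 := hP2 (st T + η • g (x T)) u hu
        have h2 : st T + η • g (x T) - u = η • g (x T) - (u - st T) := by abel
        rw [← hs, h2, norm_sub_sq_real (η • g (x T)), real_inner_smul_left, norm_smul, mul_pow,
          Real.norm_eq_abs, sq_abs, norm_sub_rev u] at h1
        have h3 := mul_le_mul_of_nonneg_left (hG (x T)) (sq_nonneg η)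
        rw [sum_range_succ]
        push_cast
        linarith
    have h4 := key T
    have h5 : ‖u‖ ^ 2 / (2 * η) + η * T * G / 2 = (‖u‖ ^ 2 + η ^ 2 * T * G) / (2 * η) := by
      field_simp
    rw [h5, le_div_iff₀ (by positivity)]
    have := sq_nonneg ‖st T - u‖
    show (∑ t ∈ range T, inner ℝ (g (x t)) (u - st t)) * (2 * η) ≤ _
    linarith

theorem upper [Fintype J] (nb : I → Finset J) (hn : ∀ i, 1 ≤ (nb i).card) (hC : 1 ≤ C) {T : ℕ}
    (hT : 1 ≤ T) (x0 : I → Fin N) :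
    minimax nb N C T ≤ √(C * T) * ∑ i, √((nb i).card : ℝ) := by
  classical
  set s : I → ℝ := fun i => √(√((nb i).card : ℝ)) with hs
  have hs1 : ∀ i, 1 ≤ s i := fun i =>
    Real.one_le_sqrt.2 (Real.one_le_sqrt.2 (by exact_mod_cast hn i))
  have hs2 : ∀ i, s i ^ 2 = √((nb i).card : ℝ) := fun i => Real.sq_sqrt (Real.sqrt_nonneg _)
  set U : ℝ := ∑ i, √((nb i).card : ℝ) with hU
  let E := EuclideanSpace ℝ (I × Fin N)
  let S : Set ((J → Fin N → ℝ) × (I × Fin N → ℝ)) :=
    {p | ((∀ j f, 0 ≤ p.1 j f ∧ p.1 j f ≤ 1) ∧ ∀ j, ∑ f, p.1 j f ≤ C) ∧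
      ∀ a, 0 ≤ p.2 a ∧ s a.1 * p.2 a ≤ 1 ∧ s a.1 * p.2 a ≤ ∑ j ∈ nb a.1, p.1 j a.2}
  have hSc : IsCompact S := by
    refine (isCompact_Icc (a := (0 : (J → Fin N → ℝ) × (I × Fin N → ℝ)))
      (b := 1)).of_isClosed_subset ?_ ?_
    · simp only [S, Set.ofPred_and, Set.ofPred_forall]
      refine IsClosed.inter (IsClosed.inter ?_ ?_) ?_
      · exact isClosed_iInter fun j => isClosed_iInter fun f =>
          (isClosed_le (by fun_prop) (by fun_prop)).inter (isClosed_le (by fun_prop) (by fun_prop))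
      · exact isClosed_iInter fun j => isClosed_le (by fun_prop) (by fun_prop)
      · exact isClosed_iInter fun a => (isClosed_le (by fun_prop) (by fun_prop)).inter
          ((isClosed_le (by fun_prop) (by fun_prop)).inter
            (isClosed_le (by fun_prop) (by fun_prop)))
    · rintro p ⟨⟨h1, -⟩, h2⟩
      refine ⟨⟨fun j f => (h1 j f).1, fun a => (h2 a).1⟩, fun j f => (h1 j f).2, fun a => ?_⟩
      have := (h2 a).2.1
      have h3 := mul_le_mul_of_nonneg_right (hs1 a.1) (h2 a).1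
      show p.2 a ≤ 1
      linarith
  have hSv : Convex ℝ S := by
    rintro p ⟨⟨h1, h2⟩, h3⟩ p' ⟨⟨h1', h2'⟩, h3'⟩ a b ha hb hab
    refine ⟨⟨fun j f => ?_, fun j => ?_⟩, fun c => ?_⟩
    · simp only [Prod.fst_add, Prod.smul_fst, Pi.add_apply, Pi.smul_apply, smul_eq_mul]
      constructor <;> nlinarith [h1 j f, h1' j f]
    · simp only [Prod.fst_add, Prod.smul_fst, Pi.add_apply, Pi.smul_apply, smul_eq_mul,
        sum_add_distrib, ← mul_sum]
      nlinarith [h2 j, h2' j]
    · simp only [Prod.fst_add, Prod.smul_fst, Prod.snd_add, Prod.smul_snd, Pi.add_apply,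
        Pi.smul_apply, smul_eq_mul, sum_add_distrib, ← mul_sum]
      obtain ⟨a1, a2, a3⟩ := h3 c
      obtain ⟨b1, b2, b3⟩ := h3' c
      refine ⟨by positivity, by nlinarith, by nlinarith⟩
  let Φ : ((J → Fin N → ℝ) × (I × Fin N → ℝ)) →L[ℝ] E :=
    (EuclideanSpace.equiv (I × Fin N) ℝ).symm.toContinuousLinearMap.comp
      (ContinuousLinearMap.snd ℝ _ _)
  have hΦ : ∀ p a, (Φ p) a = p.2 a := fun _ _ => rfl
  let g : (I → Fin N) → E := fun x => WithLp.toLp 2 fun a => if a.2 = x a.1 then s a.1 else 0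
  have hg : ∀ x (u : E), inner ℝ (g x) u = ∑ i, s i * u (i, x i) := by
    intro x u
    have : inner ℝ (g x) u = ∑ a, inner ℝ (g x a) (u a) := PiLp.inner_apply _ _
    rw [this, Fintype.sum_prod_type]
    simp [g, mul_comm]
  have hG : ∀ x, ‖g x‖ ^ 2 ≤ U := by
    intro x
    rw [← real_inner_self_eq_norm_sq, hg]
    exact le_of_eq (sum_congr rfl fun i _ => by simp [g, ← hs2, sq])
  have hCT : (0 : ℝ) < C / T := by positivity
  obtain ⟨st, h1, h2⟩ := oga (K := Φ '' S) ⟨0, by simp [S], map_zero _⟩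
    (hSc.image Φ.continuous).isClosed (hSv.linear_image Φ.toLinearMap) g hG
    (Real.sqrt_pos.2 hCT)
  choose p hp1 hp2 using h1
  refine minimax_le nb T x0 (fun l => ⟨(p l).1, (hp1 l).1⟩) fun x y => ?_
  let z : I × Fin N → ℝ := fun a => min 1 (∑ j ∈ nb a.1, y.1 j a.2)
  have hz0 : ∀ a, 0 ≤ z a := fun a => le_min zero_le_one (sum_nonneg fun j _ => (y.2.1 j _).1)
  have hsz : ∀ a : I × Fin N, s a.1 * (z a / s a.1) = z a := fun a => by
    have := hs1 a.1
    field_simp
  have hy : (y.1, fun a => z a / s a.1) ∈ S :=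
    ⟨y.2, fun a => ⟨div_nonneg (hz0 a) (by linarith [hs1 a.1]),
      by rw [hsz]; exact min_le_left _ _, by rw [hsz]; exact min_le_right _ _⟩⟩
  have h3 := h2 x _ ⟨_, hy, rfl⟩ T
  have h4 : ‖Φ (y.1, fun a => z a / s a.1)‖ ^ 2 ≤ C * U := by
    rw [EuclideanSpace.real_norm_sq_eq, Fintype.sum_prod_type, hU, mul_sum]
    refine sum_le_sum fun i _ => ?_
    simp only [hΦ, div_pow, hs2, ← sum_div]
    have hd : (0 : ℝ) < √((nb i).card : ℝ) := Real.sqrt_pos.2 (by exact_mod_cast hn i)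
    rw [div_le_iff₀ hd, mul_assoc, Real.mul_self_sqrt (by positivity)]
    calc ∑ f, z (i, f) ^ 2 ≤ ∑ f, ∑ j ∈ nb i, y.1 j f := sum_le_sum fun f _ => by
          have a1 : z (i, f) ≤ 1 := min_le_left _ _
          have a2 : z (i, f) ≤ ∑ j ∈ nb i, y.1 j f := min_le_right _ _
          nlinarith [hz0 (i, f)]
      _ = ∑ j ∈ nb i, ∑ f, y.1 j f := sum_comm
      _ ≤ ∑ _j ∈ nb i, (C : ℝ) := sum_le_sum fun j _ => y.2.2 j
      _ = _ := by simp [mul_comm]
  have h5 : C * U / (2 * √(C / T)) + √(C / T) * T * U / 2 = √(C * T) * U := by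
    have e1 : (0 : ℝ) < √(C : ℝ) := Real.sqrt_pos.2 (by positivity)
    have e2 : (0 : ℝ) < √(T : ℝ) := Real.sqrt_pos.2 (by positivity)
    rw [Real.sqrt_div (by positivity), Real.sqrt_mul (by positivity)]
    have e3 := Real.mul_self_sqrt (show (0 : ℝ) ≤ C by positivity)
    have e4 := Real.mul_self_sqrt (show (0 : ℝ) ≤ T by positivity)
    set a := √(C : ℝ)
    set b := √(T : ℝ)
    rw [← e3, ← e4]
    field_simp
    ring
  rw [← sum_sub_distrib, ← h5]
  refine le_trans (sum_le_sum fun t _ => ?_) (h3.trans ?_)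
  · rw [inner_sub_right, hg, hg, ← hp2]
    refine sub_le_sub (le_of_eq (sum_congr rfl fun i _ => ?_)) (sum_le_sum fun i _ => ?_)
    · rw [hΦ]; exact (hsz (i, x t i)).symm
    · rw [hΦ]; exact le_min ((hp1 _).2 (i, x t i)).2.1 ((hp1 _).2 (i, x t i)).2.2
  · have := Real.sqrt_pos.2 hCT
    gcongr

end Pool.Agent.H887e
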