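import Pool.Agent.H.MP_887eca_lc.A

set_option autoImplicit false

namespace Pool.Agent.H887e

open Finset Function

section Ex

variable {Ω : Type} [Fintype Ω] [Inhabited Ω]

/-- uniform average -/
noncomputable def av (F : Ω → ℝ) : ℝ := (∑ ω, F ω) / Fintype.card Ω

theorem cpos : (0 : ℝ) < Fintype.card Ω := by exact_mod_cast Fintype.card_pos

theorem av_const (c : ℝ) : av (fun _ : Ω => c) = c := by
  have := cpos (Ω := Ω)
  simp only [av, sum_const, card_univ, nsmul_eq_mul]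
  field_simp

omit [Inhabited Ω] in
theorem av_mono {F G : Ω → ℝ} (h : ∀ ω, F ω ≤ G ω) : av F ≤ av G :=
  div_le_div_of_nonneg_right (sum_le_sum fun ω _ => h ω) (by positivity)

omit [Inhabited Ω] in
theorem av_add (F G : Ω → ℝ) : av (fun ω => F ω + G ω) = av F + av G := by
  simp only [av, sum_add_distrib, add_div]

omit [Inhabited Ω] in
theorem av_mul (c : ℝ) (F : Ω → ℝ) : av (fun ω => c * F ω) = c * av F := by
  simp only [av, ← mul_sum, mul_div_assoc]

omit [Inhabited Ω] in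
theorem av_sum {ι : Type} (s : Finset ι) (F : ι → Ω → ℝ) :
    av (fun ω => ∑ i ∈ s, F i ω) = ∑ i ∈ s, av (F i) := by
  simp only [av, ← sum_div]
  rw [sum_comm]

/-- expectation over the first `T` coordinates -/
noncomputable def Ex : ℕ → ((ℕ → Ω) → ℝ) → ℝ
  | 0, F => F default
  | T + 1, F => Ex T fun w => av fun ω => F (update w T ω)

theorem Ex_mono : ∀ (T : ℕ) {F G : (ℕ → Ω) → ℝ}, (∀ w, F w ≤ G w) → Ex T F ≤ Ex T G
  | 0, _, _, h => h _
  | T + 1, _, _, h => Ex_mono T fun _ => av_mono fun _ => h _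

theorem Ex_const : ∀ (T : ℕ) (c : ℝ), Ex T (fun _ : ℕ → Ω => c) = c
  | 0, _ => rfl
  | T + 1, c => by simp only [Ex, av_const]; exact Ex_const T c

theorem Ex_add : ∀ (T : ℕ) (F G : (ℕ → Ω) → ℝ), Ex T (fun w => F w + G w) = Ex T F + Ex T G
  | 0, _, _ => rfl
  | T + 1, F, G => by simp only [Ex, av_add]; exact Ex_add T _ _

theorem Ex_mul : ∀ (T : ℕ) (c : ℝ) (F : (ℕ → Ω) → ℝ), Ex T (fun w => c * F w) = c * Ex T F
  | 0, _, _ => rfl
  | T + 1, c, F => by simp only [Ex, av_mul]; exact Ex_mul T _ _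

theorem Ex_sum {ι : Type} (s : Finset ι) (T : ℕ) (F : ι → (ℕ → Ω) → ℝ) :
    Ex T (fun w => ∑ i ∈ s, F i w) = ∑ i ∈ s, Ex T (F i) := by
  classical
  induction s using Finset.induction_on with
  | empty => simp [Ex_const]
  | insert a s ha ih => simp only [sum_insert ha, Ex_add, ih]

omit [Fintype Ω] [Inhabited Ω] in
theorem sum_up (h : Ω → ℝ) (w : ℕ → Ω) (T : ℕ) (ω : Ω) :
    ∑ t ∈ range (T + 1), h (update w T ω t) = ∑ t ∈ range T, h (w t) + h ω := by
  rw [sum_range_succ, update_self]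
  congr 1
  exact sum_congr rfl fun t ht => by rw [update_of_ne (mem_range.1 ht).ne]

theorem Ex_lin (h : Ω → ℝ) (T : ℕ) :
    Ex T (fun w => ∑ t ∈ range T, h (w t)) = T * av h := by
  induction T with
  | zero => simp [Ex]
  | succ T ih => simp only [Ex, sum_up, av_add, av_const, Ex_add, ih, Ex_const]; push_cast; ring

theorem Ex_two (h : Ω → ℝ) (h1 : av h = 0) (T : ℕ) :
    Ex T (fun w => (∑ t ∈ range T, h (w t)) ^ 2) = T * av fun ω => h ω ^ 2 := by
  induction T with
  | zero => simp [Ex]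
  | succ T ih =>
    have e : ∀ (S a : ℝ), (S + a) ^ 2 = S ^ 2 + (2 * S * a + a ^ 2) := fun _ _ => by ring
    simp only [Ex, sum_up, e, av_add, av_const, av_mul, h1, mul_zero, zero_add, Ex_add, ih,
      Ex_const]
    push_cast; ring

theorem Ex_four (h : Ω → ℝ) (h1 : av h = 0) (h3 : av (fun ω => h ω ^ 3) = 0) (T : ℕ) :
    Ex T (fun w => (∑ t ∈ range T, h (w t)) ^ 4) =
      3 * T * (T - 1) * (av fun ω => h ω ^ 2) ^ 2 + T * av fun ω => h ω ^ 4 := by
  induction T with
  | zero => simp [Ex]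
  | succ T ih =>
    have e : ∀ (S a : ℝ), (S + a) ^ 4 = S ^ 4 + (4 * S ^ 3 * a + (6 * S ^ 2 * a ^ 2 +
      (4 * S * a ^ 3 + a ^ 4))) := fun _ _ => by ring
    have e2 : ∀ (S a : ℝ), 6 * S ^ 2 * a = (6 * a) * S ^ 2 := fun _ _ => by ring
    simp only [Ex, sum_up, e, av_add, av_const, av_mul, h1, h3, mul_zero, zero_add]
    simp only [e2, Ex_add, ih, Ex_const, Ex_mul, Ex_two h h1]
    push_cast; ring

theorem Ex_abs (h : Ω → ℝ) (h1 : av h = 0) (h3 : av (fun ω => h ω ^ 3) = 0) {d : ℝ}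
    (hd : ∀ ω, h ω ^ 2 ≤ d) (T : ℕ) (hT : d ≤ T * av fun ω => h ω ^ 2) :
    √(T * av fun ω => h ω ^ 2) / 2 ≤ Ex T (fun w => |∑ t ∈ range T, h (w t)|) := by
  set m := av fun ω => h ω ^ 2 with hm
  have hm0 : 0 ≤ m := (av_const (Ω := Ω) 0).ge.trans (av_mono fun ω => sq_nonneg _)
  have h4 : av (fun ω => h ω ^ 4) ≤ d * m := by
    rw [hm, ← av_mul]
    exact av_mono fun ω => by nlinarith [hd ω, sq_nonneg (h ω)]
  set v := √(T * m) with hv
  have hv2 : v ^ 2 = T * m := Real.sq_sqrt (by positivity)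
  rcases (Real.sqrt_nonneg (T * m)).eq_or_lt with h0 | h0
  · rw [hv, ← h0, zero_div]
    exact (Ex_const T 0).ge.trans (Ex_mono T fun _ => abs_nonneg _)
  have hv0 : 0 < v := h0
  have key : ∀ s : ℝ, 3 / (4 * v) * s ^ 2 + (-1 / (16 * v ^ 3)) * s ^ 4 ≤ |s| := by
    intro s
    have e4 : s ^ 4 = |s| ^ 4 := by rw [show 4 = 2 * 2 from rfl, pow_mul, pow_mul, sq_abs]
    rw [← sq_abs s, e4]
    have ha := abs_nonneg s
    set a := |s|
    have : a - (3 / (4 * v) * a ^ 2 + (-1 / (16 * v ^ 3)) * a ^ 4) =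
        a * ((a - 2 * v) ^ 2 * (a + 4 * v)) / (16 * v ^ 3) := by
      field_simp
      ring
    have h5 : 0 ≤ a * ((a - 2 * v) ^ 2 * (a + 4 * v)) / (16 * v ^ 3) := by positivity
    linarith
  refine le_trans ?_ (Ex_mono T fun w => key _)
  rw [Ex_add, Ex_mul, Ex_mul, Ex_two h h1, Ex_four h h1 h3, ← hm, ← hv2]
  have h6 : 3 * T * (T - 1) * m ^ 2 + T * av (fun ω => h ω ^ 4) ≤ 4 * v ^ 4 := by
    have hT0 : (0 : ℝ) ≤ T := by positivity
    have a1 := mul_le_mul_of_nonneg_left h4 hT0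
    have a2 : T * (d * m) ≤ v ^ 2 * v ^ 2 := by
      rw [hv2]; nlinarith [mul_le_mul_of_nonneg_left hT (mul_nonneg hT0 hm0)]
    have a3 : 3 * T * (T - 1) * m ^ 2 ≤ 3 * (v ^ 2 * v ^ 2) := by
      rw [hv2]; nlinarith [mul_nonneg hT0 (sq_nonneg m)]
    nlinarith
  have h7 : v / 2 = 3 / (4 * v) * v ^ 2 + (-1 / (16 * v ^ 3)) * (4 * v ^ 4) := by
    field_simp
    ring
  rw [h7]
  have : -1 / (16 * v ^ 3) ≤ 0 := div_nonpos_of_nonpos_of_nonneg (by norm_num) (by positivity)
  nlinarith [mul_le_mul_of_nonpos_left h6 this]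

theorem Ex_pol {X : Type} (r : Ω → X) (F : List X → Ω → ℝ) {c : ℝ} (hF : ∀ l, av (F l) ≤ c)
    (T : ℕ) :
    Ex T (fun w => ∑ t ∈ range T, F ((List.range t).map fun s => r (w s)) (w t)) ≤ T * c := by
  induction T with
  | zero => simp [Ex]
  | succ T ih =>
    have e : ∀ (w : ℕ → Ω) (ω : Ω) (t : ℕ), t ≤ T →
        ((List.range t).map fun s => r (update w T ω s)) = (List.range t).map fun s => r (w s) :=
      fun w ω t ht => List.map_congr_left fun s hs => by
        rw [update_of_ne (by have := List.mem_range.1 hs; omega)]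
    have e2 : ∀ (w : ℕ → Ω) (ω : Ω), ∑ t ∈ range (T + 1),
        F ((List.range t).map fun s => r (update w T ω s)) (update w T ω t) =
        ∑ t ∈ range T, F ((List.range t).map fun s => r (w s)) (w t) +
          F ((List.range T).map fun s => r (w s)) ω := by
      intro w ω
      rw [sum_range_succ, update_self, e w ω T le_rfl]
      congr 1
      exact sum_congr rfl fun t ht => by
        rw [update_of_ne (mem_range.1 ht).ne, e w ω t (mem_range.1 ht).le]
    simp only [Ex, e2, av_add, av_const, Ex_add]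
    have := (Ex_mono T fun w : ℕ → Ω => hF ((List.range T).map fun s => r (w s))).trans
      (Ex_const T c).le
    push_cast
    linarith

end Ex

section Min

variable {J : Type} [Fintype J] [DecidableEq J]

/-- `j` comes first in `A` for the ordering `σ` -/
def IsMin (σ : J ≃ Fin (Fintype.card J)) (A : Finset J) (j : J) : Prop := ∀ k ∈ A, σ j ≤ σ k

instance (σ : J ≃ Fin (Fintype.card J)) (A : Finset J) (j : J) : Decidable (IsMin σ A j) := by
  unfold IsMin; infer_instance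

noncomputable instance : Inhabited (J ≃ Fin (Fintype.card J)) := ⟨Fintype.equivFin J⟩

theorem sum_min (σ : J ≃ Fin (Fintype.card J)) {A : Finset J} (hA : A.Nonempty) :
    ∑ j ∈ A, (if IsMin σ A j then (1 : ℝ) else 0) = 1 := by
  obtain ⟨j, hj, h⟩ := exists_min_image A σ hA
  rw [sum_eq_single_of_mem j hj, if_pos (show IsMin σ A j from h)]
  intro k hk hne
  exact if_neg fun h' => hne (σ.injective (le_antisymm (h' j hj) (h k hk)))

theorem av_min {A : Finset J} {j : J} (hj : j ∈ A) :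
    av (fun σ : J ≃ Fin (Fintype.card J) => if IsMin σ A j then (1 : ℝ) else 0) = 1 / A.card := by
  have e : ∀ k ∈ A, av (fun σ : J ≃ Fin (Fintype.card J) => if IsMin σ A k then (1 : ℝ) else 0) =
      av (fun σ : J ≃ Fin (Fintype.card J) => if IsMin σ A j then (1 : ℝ) else 0) := by
    intro k hk
    unfold av
    congr 1
    refine Fintype.sum_equiv (Equiv.equivCongr (Equiv.swap j k) (Equiv.refl _)) _ _ fun σ => ?_
    have hm : ∀ a, Equiv.swap j k a ∈ A ↔ a ∈ A := by
      intro a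
      rcases eq_or_ne a j with rfl | h1
      · simp [hj, hk]
      rcases eq_or_ne a k with rfl | h2
      · simp [hj, hk]
      · rw [Equiv.swap_apply_of_ne_of_ne h1 h2]
    congr 1
    simp only [IsMin, Equiv.equivCongr_apply_apply, Equiv.refl_apply, Equiv.symm_swap,
      Equiv.swap_apply_left, eq_iff_iff]
    refine ⟨fun h a ha => h _ ((hm a).2 ha), fun h a ha => ?_⟩
    simpa using h _ ((hm a).2 ha)
  have h1 := av_sum A fun k (σ : J ≃ Fin (Fintype.card J)) => if IsMin σ A k then (1 : ℝ) else 0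
  simp only [sum_min _ ⟨j, hj⟩, av_const] at h1
  rw [sum_congr rfl e, sum_const, nsmul_eq_mul] at h1
  have : (0 : ℝ) < A.card := by exact_mod_cast card_pos.2 ⟨j, hj⟩
  rw [eq_div_iff this.ne']
  linarith

end Min

end Pool.Agent.H887e
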