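import Pool.Agent.H.MP_887eca_lc.B

set_option autoImplicit false

namespace Pool.Agent.H887e

open Finset Function

theorem av_prod {A B : Type} [Fintype A] [Fintype B] (F : A × B → ℝ) :
    av F = av fun a => av fun b => F (a, b) := by
  simp only [av, Fintype.sum_prod_type, ← sum_div, Fintype.card_prod, Nat.cast_mul, div_div,
    mul_comm]

/-- sign of a bit -/
def sg (b : Bool) : ℝ := if b then 1 else -1

variable {I J : Type} [Fintype I] [Fintype J] [DecidableEq J] {N C : ℕ}

theorem lower0 (nb : I → Finset J) (hn : ∀ i, (nb i).Nonempty) (hC : 1 ≤ C)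
    (hN : 2 * C * Fintype.card J ≤ N) {T : ℕ} (hT : C * Fintype.card J ≤ T) :
    (∑ j, C * √(T * ((∑ i with j ∈ nb i, ∑ i' with j ∈ nb i',
      1 / ((nb i ∪ nb i').card : ℝ)) / C))) / 4 ≤ minimax nb N C T := by
  classical
  have : NeZero C := ⟨by omega⟩
  have hC0 : (0 : ℝ) < C := by exact_mod_cast hC
  obtain ⟨φ⟩ : Nonempty (J × Fin C × Bool ↪ Fin N) :=
    Function.Embedding.nonempty_of_card_le (by simp; nlinarith)
  choose top ht1 ht2 using fun (σ : J ≃ Fin (Fintype.card J)) i => exists_min_image (nb i) σ (hn i)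
  have ht : ∀ σ i j, top σ i = j ↔ j ∈ nb i ∧ IsMin σ (nb i) j := fun σ i j =>
    ⟨by rintro rfl; exact ⟨ht1 σ i, ht2 σ i⟩,
      fun h => σ.injective (le_antisymm (ht2 σ i j h.1) (h.2 _ (ht1 σ i)))⟩
  let Ω := (J ≃ Fin (Fintype.card J)) × Fin C × Bool
  let r : Ω → I → Fin N := fun ω i => φ (top ω.1 i, ω.2)
  let n : J → (J ≃ Fin (Fintype.card J)) → ℝ := fun j σ => ∑ i, if top σ i = j then 1 else 0
  let h : J × Fin C → Ω → ℝ := fun a ω => sg ω.2.2 * (if ω.2.1 = a.2 then n a.1 ω.1 else 0)
  have hodd : ∀ a (k : ℕ), Odd k → av (fun ω => h a ω ^ k) = 0 := by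
    intro a k hk
    rw [av_prod]
    refine (congrArg av (funext fun σ => ?_)).trans (av_const 0)
    rw [av_prod]
    refine (congrArg av (funext fun c => ?_)).trans (av_const 0)
    simp only [av, h, sg, Fintype.sum_bool, if_true, Bool.false_eq_true, if_false, neg_mul,
      hk.neg_pow, add_neg_cancel, zero_div]
  have hsq : ∀ a ω, h a ω ^ 2 = if ω.2.1 = a.2 then n a.1 ω.1 ^ 2 else 0 := by
    rintro a ⟨σ, c, b⟩
    cases b <;> simp [h, sg]
  have hn2 : ∀ j, av (fun σ => n j σ ^ 2) =
      ∑ i with j ∈ nb i, ∑ i' with j ∈ nb i', 1 / ((nb i ∪ nb i').card : ℝ) := by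
    intro j
    simp only [n, sq, sum_mul_sum, av_sum, sum_filter]
    refine sum_congr rfl fun i _ => ?_
    split_ifs with hi
    · refine sum_congr rfl fun i' _ => ?_
      split_ifs with hi'
      · rw [← av_min (mem_union_left (nb i') hi)]
        refine congrArg av (funext fun σ => ?_)
        simp only [ht, hi, hi', true_and, IsMin, mem_union, or_imp, forall_and, ite_zero_mul_ite_zero,
          mul_one]
      · simp [ht, hi', av]
    · simp [ht, hi, av]
  have hm2 : ∀ a, av (fun ω => h a ω ^ 2) = av (fun σ => n a.1 σ ^ 2) / C := by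
    intro a
    rw [av_prod, div_eq_inv_mul, ← av_mul]
    refine congrArg av (funext fun σ => ?_)
    rw [av_prod]
    simp only [hsq, av_const]
    simp [av, div_eq_inv_mul]
  have habs : ∀ a, √(T * (av (fun σ => n a.1 σ ^ 2) / C)) / 2 ≤
      Ex T (fun w => |∑ t ∈ range T, h a (w t)|) := by
    intro a
    rw [← hm2]
    refine Ex_abs (h a) (by simpa using hodd a 1 odd_one) (hodd a 3 (by decide))
      (d := ((univ.filter fun i => a.1 ∈ nb i).card : ℝ) ^ 2) (fun ω => ?_) T ?_
    · rw [hsq]
      split_ifs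
      · refine pow_le_pow_left₀ (sum_nonneg fun _ _ => by positivity) ?_ 2
        rw [card_filter]
        push_cast
        refine sum_le_sum fun i _ => ?_
        split_ifs with h1 h2
        · rfl
        · exact absurd ((ht _ _ _).1 h1).1 h2
        · norm_num
        · rfl
      · positivity
    · rw [hm2, hn2]
      have hJ : (0 : ℝ) < Fintype.card J := by
        exact_mod_cast Fintype.card_pos_iff.2 ⟨a.1⟩
      have h1 : ((univ.filter fun i => a.1 ∈ nb i).card : ℝ) ^ 2 / Fintype.card J ≤
          ∑ i with a.1 ∈ nb i, ∑ i' with a.1 ∈ nb i', 1 / ((nb i ∪ nb i').card : ℝ) := by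
        calc _ = ∑ _i with a.1 ∈ nb _i, ∑ _i' with a.1 ∈ nb _i', 1 / (Fintype.card J : ℝ) := by
              rw [sum_const, sum_const, nsmul_eq_mul, nsmul_eq_mul]
              ring
          _ ≤ _ := sum_le_sum fun i _ => sum_le_sum fun i' _ => one_div_le_one_div_of_le
              (by exact_mod_cast card_pos.2 ((hn i).mono subset_union_left))
              (by exact_mod_cast card_le_univ _)
      rw [div_le_iff₀ hJ] at h1
      have h2 : (C : ℝ) * Fintype.card J ≤ T := by exact_mod_cast hT
      have h3 : 0 ≤ ∑ i with a.1 ∈ nb i, ∑ i' with a.1 ∈ nb i', 1 / ((nb i ∪ nb i').card : ℝ) :=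
        sum_nonneg fun _ _ => sum_nonneg fun _ _ => one_div_nonneg.2 (Nat.cast_nonneg _)
      rw [← mul_div_assoc, le_div_iff₀ hC0]
      nlinarith [mul_le_mul_of_nonneg_right h2 h3]
  have hon : ∀ y : Conf J N C, av (fun ω => q nb (r ω) y) ≤ Fintype.card I / 2 := by
    intro y
    unfold q
    rw [av_sum]
    refine le_trans (sum_le_sum fun i _ => (?_ : _ ≤ (1 / 2 : ℝ))) (by simp [div_eq_mul_inv])
    have hd : (0 : ℝ) < (nb i).card := by exact_mod_cast card_pos.2 (hn i)
    calc _ ≤ av fun ω : Ω => ∑ j ∈ nb i, (∑ j' ∈ nb i, y.1 j' (φ (j, ω.2))) *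
          if IsMin ω.1 (nb i) j then 1 else 0 := av_mono fun ω => by
          refine (min_le_right _ _).trans (le_of_eq (Eq.symm ?_))
          rw [sum_eq_single_of_mem (top ω.1 i) (ht1 _ _), if_pos ((ht _ _ _).1 rfl).2, mul_one]
          intro j hj hne
          rw [if_neg fun h' => hne ((ht _ _ _).2 ⟨hj, h'⟩).symm, mul_zero]
      _ = ∑ j ∈ nb i, (∑ c : Fin C × Bool, ∑ j' ∈ nb i, y.1 j' (φ (j, c))) /
          (2 * C * (nb i).card) := by
          rw [av_sum]
          refine sum_congr rfl fun j hj => ?_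
          rw [av_prod]
          have e : ∀ σ : J ≃ Fin (Fintype.card J), (av fun c : Fin C × Bool =>
              (∑ j' ∈ nb i, y.1 j' (φ (j, c))) * if IsMin σ (nb i) j then (1 : ℝ) else 0) =
              (av fun c : Fin C × Bool => ∑ j' ∈ nb i, y.1 j' (φ (j, c))) *
                if IsMin σ (nb i) j then (1 : ℝ) else 0 := fun σ => by
            rw [mul_comm, ← av_mul]
            exact congrArg av (funext fun c => mul_comm _ _)
          refine (congrArg av (funext e)).trans ?_
          rw [av_mul, av_min hj]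
          simp only [av, Fintype.card_prod, Fintype.card_fin, Fintype.card_bool]
          push_cast
          field_simp
      _ ≤ 1 / 2 := by
          rw [← sum_div, div_le_iff₀ (by positivity)]
          calc _ = ∑ j' ∈ nb i, ∑ a ∈ (nb i) ×ˢ univ, y.1 j' (φ a) := by
                simp only [sum_product]
                exact (sum_congr rfl fun j _ => sum_comm).trans sum_comm
            _ ≤ ∑ _j' ∈ nb i, (C : ℝ) := sum_le_sum fun j' _ => by
                refine le_trans ?_ (y.2.2 j')
                rw [← sum_map _ φ (y.1 j')]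
                exact sum_le_sum_of_subset_of_nonneg (subset_univ _) fun f _ _ => (y.2.1 j' f).1
            _ = _ := by simp; ring
  refine le_ciInf fun π => ?_
  have hoff : ∀ w : ℕ → Ω, T * (Fintype.card I / 2 : ℝ) +
      (1 / 2) * ∑ a, |∑ t ∈ range T, h a (w t)| ≤ regret nb π T + ∑ t ∈ range T,
        q nb (r (w t)) (π ((List.range t).map fun s => r (w s))) := by
    intro w
    let τ : J × Fin C → Bool := fun a => decide (0 ≤ ∑ t ∈ range T, h a (w t))
    let y : Conf J N C := ⟨fun j f => if f ∈ univ.image (fun k => φ (j, k, τ (j, k))) then 1 else 0,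
      fun j f => by dsimp only; split_ifs <;> norm_num, fun j => by
        rw [sum_boole, filter_mem_eq_inter, univ_inter]
        exact_mod_cast card_image_le.trans (by simp)⟩
    have h1 := le_regret nb π T (fun t => r (w t)) y
    have h2 : ∀ ω : Ω, (Fintype.card I / 2 : ℝ) + (1 / 2) * ∑ a, sg (τ a) * h a ω ≤
        q nb (r ω) y := by
      intro ω
      have e : ∑ a, sg (τ a) * h a ω = ∑ i, sg (τ (top ω.1 i, ω.2.1)) * sg ω.2.2 := by
        simp only [h, n, Fintype.sum_prod_type, mul_ite, mul_zero, sum_ite_eq, mem_univ, if_true,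
          mul_sum, mul_one]
        rw [sum_comm]
        simp
      have e2 : (Fintype.card I / 2 : ℝ) = ∑ _i : I, (1 / 2 : ℝ) := by simp [div_eq_mul_inv]
      rw [e, e2, mul_sum, ← sum_add_distrib]
      refine sum_le_sum fun i _ => ?_
      by_cases hb : τ (top ω.1 i, ω.2.1) = ω.2.2
      · have : y.1 (top ω.1 i) (r ω i) = 1 := if_pos (mem_image.2 ⟨ω.2.1, mem_univ _, by rw [hb]⟩)
        have h3 := single_le_sum (f := fun j => y.1 j (r ω i)) (fun j _ => (y.2.1 j _).1)
          (ht1 ω.1 i)
        rw [hb]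
        refine le_min ?_ (le_trans ?_ (this.ge.trans h3)) <;> cases ω.2.2 <;> norm_num [sg]
      · refine le_trans ?_ (le_min zero_le_one (sum_nonneg fun j _ => (y.2.1 j _).1))
        revert hb
        cases ω.2.2 <;> cases τ (top ω.1 i, ω.2.1) <;> norm_num [sg]
    have h3 := sum_le_sum fun t (_ : t ∈ range T) => h2 (w t)
    rw [sum_add_distrib, ← mul_sum, sum_comm, sum_const, card_range, nsmul_eq_mul] at h3
    have h4 : ∀ a, ∑ t ∈ range T, sg (τ a) * h a (w t) = |∑ t ∈ range T, h a (w t)| := by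
      intro a
      rw [← mul_sum]
      by_cases h5 : 0 ≤ ∑ t ∈ range T, h a (w t)
      · simp [τ, sg, h5, abs_of_nonneg h5]
      · simp [τ, sg, h5, abs_of_neg (not_le.1 h5)]
    simp only [h4] at h3
    linarith
  have h1 := Ex_mono T hoff
  rw [Ex_add, Ex_add, Ex_const, Ex_const, Ex_mul, Ex_sum] at h1
  have h2 := Ex_pol r (fun l ω => q nb (r ω) (π l)) (fun l => hon (π l)) T
  have h3 := sum_le_sum fun a (_ : a ∈ univ) => habs a
  simp only [hn2, Fintype.sum_prod_type, sum_const, card_univ, Fintype.card_fin, nsmul_eq_mul,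
    ← mul_div_assoc, ← sum_div] at h3
  simp only [Fintype.sum_prod_type] at h1
  simp only [← mul_div_assoc]
  linarith

end Pool.Agent.H887e
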