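import Mathlib

set_option autoImplicit false

namespace Pool.Agent.H887e

open Finset

/-- cache configurations: entries in `[0,1]`, every cache holds at most `C` -/
def Conf (J : Type) (N C : ℕ) : Type :=
  {y : J → Fin N → ℝ // (∀ j f, 0 ≤ y j f ∧ y j f ≤ 1) ∧ ∀ j, ∑ f, y j f ≤ C}

/-- inelastic one-slot reward; user `i` requests file `x i` and sees the caches `nb i` -/
noncomputable def q {I J : Type} [Fintype I] {N C : ℕ} (nb : I → Finset J) (x : I → Fin N)
    (y : Conf J N C) : ℝ :=
  ∑ i, min 1 (∑ j ∈ nb i, y.1 j (x i))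

/-- regret over `T` slots of the policy `π`, a function of the list of past requests -/
noncomputable def regret {I J : Type} [Fintype I] {N C : ℕ} (nb : I → Finset J)
    (π : List (I → Fin N) → Conf J N C) (T : ℕ) : ℝ :=
  ⨆ x : ℕ → I → Fin N, ((⨆ y : Conf J N C, ∑ t ∈ range T, q nb (x t) y) -
    ∑ t ∈ range T, q nb (x t) (π ((List.range t).map x)))

/-- minimax regret -/
noncomputable def minimax {I J : Type} [Fintype I] (nb : I → Finset J) (N C T : ℕ) : ℝ :=
  ⨅ π : List (I → Fin N) → Conf J N C, regret nb π T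

end Pool.Agent.H887e
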