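import Pool.Agent.H.MP_887eca_lc.C

set_option autoImplicit false

namespace Pool.Agent.H887e

open Finset

theorem cls {I J : Type} [DecidableEq J] (nb : I → Finset J) {δ L : ℕ} (hδ : 1 ≤ δ)
    (hd : ∀ i, δ ≤ (nb i).card ∧ (nb i).card < 2 ^ L * δ) (s : Finset I) :
    (∑ i ∈ s, 1 / √((nb i).card : ℝ)) ^ 2 ≤
      3 * L * ∑ i ∈ s, ∑ i' ∈ s, 1 / ((nb i ∪ nb i').card : ℝ) := by
  classical
  let c : I → ℕ := fun i => Nat.log 2 ((nb i).card / δ)
  have h0 : ∀ i, (nb i).card / δ ≠ 0 := fun i => (Nat.div_pos (hd i).1 hδ).ne'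
  have h1 : ∀ i, 2 ^ c i * δ ≤ (nb i).card := fun i =>
    (Nat.le_div_iff_mul_le hδ).1 (Nat.pow_log_le_self 2 (h0 i))
  have h2 : ∀ i, (nb i).card < 2 ^ (c i + 1) * δ := fun i =>
    (Nat.div_lt_iff_lt_mul hδ).1 (Nat.lt_pow_succ_log_self one_lt_two _)
  have h3 : ∀ i ∈ s, c i ∈ range L := fun i _ =>
    mem_range.2 (Nat.log_lt_of_lt_pow (h0 i) ((Nat.div_lt_iff_lt_mul hδ).2 (hd i).2))
  rw [← sum_fiberwise_of_maps_to h3]
  refine sq_sum_le_card_mul_sum_sq.trans ?_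
  rw [card_range, mul_comm 3, mul_assoc, ← sum_fiberwise_of_maps_to h3 (fun i => ∑ i' ∈ s, _),
    mul_sum _ _ 3]
  refine mul_le_mul_of_nonneg_left (sum_le_sum fun k _ => ?_) (by positivity)
  rw [sq, sum_mul_sum, mul_sum]
  refine sum_le_sum fun i hi => ?_
  rw [mul_sum]
  refine le_trans (sum_le_sum fun i' hi' => ?_) (sum_le_sum_of_subset_of_nonneg
    (filter_subset (fun i => c i = k) s) fun _ _ _ => by positivity)
  have a1 := h1 i
  have a2 := h2 i
  have a3 := h1 i'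
  have a4 := h2 i'
  rw [(mem_filter.1 hi).2] at a1 a2
  rw [(mem_filter.1 hi').2] at a3 a4
  have b1 : ((nb i).card : ℝ) ≤ 2 * (nb i').card := by
    exact_mod_cast (by rw [pow_succ] at a2; nlinarith : (nb i).card ≤ 2 * (nb i').card)
  have b2 : ((nb i').card : ℝ) ≤ 2 * (nb i).card := by
    exact_mod_cast (by rw [pow_succ] at a4; nlinarith : (nb i').card ≤ 2 * (nb i).card)
  have p1 : (0 : ℝ) < (nb i).card := by exact_mod_cast hδ.trans (hd i).1
  have p2 : (0 : ℝ) < (nb i').card := by exact_mod_cast hδ.trans (hd i').1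
  have p3 : (0 : ℝ) < (nb i ∪ nb i').card := p1.trans_le (by
    exact_mod_cast card_le_card subset_union_left)
  have p4 : ((nb i ∪ nb i').card : ℝ) ≤ (nb i).card + (nb i').card := by
    exact_mod_cast card_union_le _ _
  rw [div_mul_div_comm, one_mul, mul_one_div, ← Real.sqrt_mul p1.le,
    div_le_div_iff₀ (by positivity) p3, one_mul]
  refine p4.trans ?_
  rw [show (3 : ℝ) = √9 by rw [show (9 : ℝ) = 3 ^ 2 by norm_num, Real.sqrt_sq (by norm_num)],
    ← Real.sqrt_mul (by norm_num)]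
  exact Real.le_sqrt_of_sq_le (by nlinarith)

theorem lower {I J : Type} [Fintype I] [Fintype J] {N C T δ L : ℕ} (nb : I → Finset J)
    (hδ : 1 ≤ δ) (hL : 1 ≤ L) (hd : ∀ i, δ ≤ (nb i).card ∧ (nb i).card < 2 ^ L * δ) (hC : 1 ≤ C)
    (hN : 2 * C * Fintype.card J ≤ N) (hT : C * Fintype.card J ≤ T) :
    √(C * T / L) * (∑ i, √((nb i).card : ℝ)) / 7 ≤ minimax nb N C T := by
  classical
  refine le_trans ?_ (lower0 nb (fun i => card_pos.1 (hδ.trans (hd i).1)) hC hN hT)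
  have e : ∑ i, √((nb i).card : ℝ) = ∑ j, ∑ i with j ∈ nb i, 1 / √((nb i).card : ℝ) := by
    simp only [sum_filter]
    rw [sum_comm]
    refine sum_congr rfl fun i _ => ?_
    rw [← sum_filter, filter_mem_eq_inter, univ_inter, sum_const, nsmul_eq_mul, mul_one_div,
      Real.div_sqrt]
  rw [e, mul_sum, sum_div, sum_div]
  refine sum_le_sum fun j _ => ?_
  have h1 := cls nb hδ hd (univ.filter fun i => j ∈ nb i)
  have hu : 0 ≤ ∑ i with j ∈ nb i, 1 / √((nb i).card : ℝ) :=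
    sum_nonneg fun _ _ => one_div_nonneg.2 (Real.sqrt_nonneg _)
  set u := ∑ i with j ∈ nb i, 1 / √((nb i).card : ℝ)
  set W := ∑ i with j ∈ nb i, ∑ i' with j ∈ nb i', 1 / ((nb i ∪ nb i').card : ℝ)
  clear_value u W
  have hC0 : (0 : ℝ) < C := by exact_mod_cast hC
  have hL0 : (0 : ℝ) < L := by exact_mod_cast hL
  have hW : 0 ≤ W := by
    by_contra h
    nlinarith [sq_nonneg u, mul_pos hL0 (neg_pos.2 (not_le.1 h))]
  refine le_of_sq_le_sq ?_ (by positivity)
  rw [div_pow, div_pow, mul_pow, mul_pow, Real.sq_sqrt (by positivity),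
    Real.sq_sqrt (by positivity)]
  have h2 : C * T / L * u ^ 2 ≤ 3 * (C * T * W) := by
    calc _ ≤ C * T / L * (3 * L * W) := by gcongr
      _ = _ := by field_simp
  have h3 : (C : ℝ) ^ 2 * (T * (W / C)) = C * T * W := by field_simp
  have h4 : (0 : ℝ) ≤ C * T * W := by positivity
  rw [h3]
  linarith

end Pool.Agent.H887e
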